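import Pool.Agent.T6.H3.LF.Exps

/-!
# The numbers `(n π) ^ π` and a large algebraically closed field

Let `q` be any sequence of integers `≥ 2`, `K` the algebraically closed field of the approximable complex numbers
and `R ⊆ K` the field of the rationally approximable real numbers (`Pool.Agent.T6.H3.LF.Defs`). For an explicit
sequence `q₀` the field `K` has transcendence degree `2 ^ ℵ₀`. Of course `K` contains all algebraic numbers. The
number `π ^ π` is the member `n = 1` of the families below, for `a = s = π`.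

**Theorem.** Let `a > 0` be any real number outside of `K` and `s` any complex number outside of `R`, for instance
`a = s = π`. (1) For at most `(log₂ N + 1) ^ 2` of the integers `n ≤ N` the number `(n a) ^ s` is in `K`. More precisely, the
numbers `y` in the `R`-span `M` of the logarithms of the primes for which `(e ^ y a) ^ s` is in `K` form the empty set
or a coset of an `R`-space of dimension at most two. (2) If `(n a) ^ s` is not in `K`, then its powers `(n a) ^ (s x_i)`
are algebraically independent over `K` for all `x_1, …, x_m` in `R` which are linearly independent over `ℚ`.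
(3) Let `t` be `π` or any other number which is not in such a field, for any sequence `q`. Let `n ≠ m` be positive integers, for instance `n = 1`. Among the polynomials `u` in `t` with
coefficients in `R` those for which both `(n a) ^ u` and `(m a) ^ u` are in `K` form an `R`-space of dimension at most
two, which does not contain `1`; for at most two exponents `j` both `(n a) ^ (t ^ j)` and `(m a) ^ (t ^ j)` are in `K`.

The proof: the quantitative six exponentials theorem of the starting files (`Pool.Agent.R347.SX`), with lower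
bounds for the combinations over `R` of numbers with lower bounds (`Pool.Agent.T6.H3.LF.Low`).
-/

set_option autoImplicit false

namespace Pool.Agent.Results.MP_4c2ad3_nt.LargeField

open Pool.Agent.T6.H3.LF

/-- the combinations `∑ x_p log p` of the logarithms of the primes with coefficients in `R` -/
noncomputable def M (R : IntermediateField ℚ ℝ) : Submodule R ℝ :=
  Submodule.span R (Set.range fun p : Nat.Primes => Real.log (p : ℕ))

open Classical in
/-- the integers `1 ≤ n ≤ N` with `(n a) ^ s` in `K` -/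
noncomputable def badMultiples (K : IntermediateField ℚ ℂ) (a : ℝ) (s : ℂ) (N : ℕ) : Finset ℕ :=
  (Finset.Icc 1 N).filter fun n => ((n * a : ℝ) : ℂ) ^ s ∈ K

/-- the statement on the count -/
def Few (K : IntermediateField ℚ ℂ) (a : ℝ) (s : ℂ) : Prop :=
  ∀ N : ℕ, (badMultiples K a s N).card ≤ (Nat.log 2 N + 1) ^ 2

/-- the `y` in `M` with `(e ^ y a) ^ s` in `K` form the empty set or a coset of a space of dimension at most two -/
def Coset (K : IntermediateField ℚ ℂ) (R : IntermediateField ℚ ℝ) (a : ℝ) (s : ℂ) : Prop :=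
  ∃ E : Submodule R ℝ, Module.rank R E ≤ 2 ∧ ∀ y ∈ M R, ∀ y' ∈ M R,
    ((Real.exp y * a : ℝ) : ℂ) ^ s ∈ K → (((Real.exp y' * a : ℝ) : ℂ) ^ s ∈ K ↔ y' - y ∈ E)

/-- the statement (2) -/
def Powers (K : IntermediateField ℚ ℂ) (R : IntermediateField ℚ ℝ) (a : ℝ) (s : ℂ) : Prop :=
  ∀ n : ℕ, 1 ≤ n → ((n * a : ℝ) : ℂ) ^ s ∉ K → ∀ (m : ℕ) (x : Fin m → R), LinearIndependent ℚ x →
    AlgebraicIndependent K fun i => ((n * a : ℝ) : ℂ) ^ (s * ((x i : ℝ) : ℂ))

/-- the polynomials in `t` with coefficients in `R` -/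
noncomputable def W (R : IntermediateField ℚ ℝ) (t : ℂ) : Submodule R ℂ :=
  Submodule.span R (Set.range fun j : ℕ => t ^ j)

/-- the polynomials `u` in `t` for which `(n a) ^ u` and `(m a) ^ u` are in `K` -/
def exponents (K : IntermediateField ℚ ℂ) (R : IntermediateField ℚ ℝ) (a : ℝ) (t : ℂ) (n m : ℕ) : Set ℂ :=
  {u | u ∈ W R t ∧ ((n * a : ℝ) : ℂ) ^ u ∈ K ∧ ((m * a : ℝ) : ℂ) ^ u ∈ K}

/-- the set `S` is a space of dimension at most two without `1`; at most two of the powers of `t` are in `S` -/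
def Small (R : IntermediateField ℚ ℝ) (t : ℂ) (S : Set ℂ) : Prop :=
  (∃ E : Submodule R ℂ, (E : Set ℂ) = S ∧ Module.rank R E ≤ 2) ∧ 1 ∉ S ∧ {j : ℕ | t ^ j ∈ S}.encard ≤ 2

theorem ofReal_cpow' {a : ℝ} (ha : 0 < a) (x : ℂ) :
    (a : ℂ) ^ x = Complex.exp (x * ((Real.log a : ℝ) : ℂ)) := by
  rw [Complex.cpow_def_of_ne_zero (by exact_mod_cast ha.ne'), Complex.ofReal_log ha.le, mul_comm]

section

open Pool.Agent.R347.LW Pool.Agent.R347.SX

variable {q : ℕ → ℕ} (hq : ∀ k, 2 ≤ q k)

include hq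

theorem nat_appr (n : ℕ) : Appr q (n : ℂ) := by
  have := Appr.rat hq ((n : ℕ) : ℚ)
  push_cast at this
  exact this

theorem good {a : ℝ} (ha : 0 < a) (s : ℂ) (hs : ¬ ∃ x : ℝ, RAppr q x ∧ s = x) :
    Few (UK hq) a s ∧ Coset (UK hq) (UR hq) a s ∧ Powers (UK hq) (UR hq) a s := by
  classical
  refine ⟨fun N => ?_, ⟨EE hq s, rank_EE hq s hs, ?_⟩, ?_⟩
  · refine count_s hq s (s * ((Real.log a : ℝ) : ℂ)) hs N _ fun n hn => ?_
    unfold badMultiples at hn
    rw [Finset.mem_filter, Finset.mem_Icc] at hn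
    refine ⟨hn.1, ?_⟩
    have h1 := hn.2
    have hn0 : (0 : ℝ) < n := by exact_mod_cast hn.1.1
    rw [ofReal_cpow' (mul_pos hn0 ha), Real.log_mul hn0.ne' ha.ne'] at h1
    have e1 : s * ((Real.log n : ℝ) : ℂ) + s * ((Real.log a : ℝ) : ℂ) =
        s * ((Real.log n + Real.log a : ℝ) : ℂ) := by
      push_cast
      ring
    rw [e1]
    exact h1
  · intro y hy y' hy' h
    rw [ofReal_cpow' (mul_pos (Real.exp_pos _) ha), Real.log_mul (Real.exp_pos _).ne' ha.ne',
      Real.log_exp] at h ⊢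
    rw [mem_EE]
    constructor
    · intro h'
      refine ⟨(MR (UR hq)).sub_mem hy' hy, ?_⟩
      have e1 : Complex.exp (s * ((y' - y : ℝ) : ℂ)) =
          Complex.exp (s * ((y' + Real.log a : ℝ) : ℂ)) *
            (Complex.exp (s * ((y + Real.log a : ℝ) : ℂ)))⁻¹ := by
        rw [← Complex.exp_neg, ← Complex.exp_add]
        congr 1
        push_cast
        ring
      rw [e1]
      exact Appr.mul hq h' (Appr.inv hq h)
    · rintro ⟨_, h'⟩
      have e1 : Complex.exp (s * ((y' + Real.log a : ℝ) : ℂ)) =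
          Complex.exp (s * ((y' - y : ℝ) : ℂ)) * Complex.exp (s * ((y + Real.log a : ℝ) : ℂ)) := by
        rw [← Complex.exp_add]
        congr 1
        push_cast
        ring
      rw [e1]
      exact Appr.mul hq h' h
  · intro n hn h m x hx
    have hn0 : (0 : ℝ) < n := by exact_mod_cast hn
    rw [ofReal_cpow' (mul_pos hn0 ha)] at h
    have h1 := dich hq (s * ((Real.log (n * a) : ℝ) : ℂ)) h m x hx
    have e1 : (fun i => ((n * a : ℝ) : ℂ) ^ (s * ((x i : ℝ) : ℂ))) =
        fun i => Complex.exp (((x i : ℝ) : ℂ) * (s * ((Real.log (n * a) : ℝ) : ℂ))) := by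
      funext i
      rw [ofReal_cpow' (mul_pos hn0 ha)]
      congr 1
      ring
    rw [e1]
    exact h1

theorem goodExponents {a : ℝ} (ha : 0 < a) (haK : ¬ Appr q (a : ℂ)) {t : ℂ}
    (ht : Pool.Agent.T6.H3.LF.Far t) {n m : ℕ} (hn : 1 ≤ n) (hm : 1 ≤ m) (hnm : n ≠ m) :
    Small (UR hq) t (exponents (UK hq) (UR hq) a t n m) := by
  have hn0 : (0 : ℝ) < n := by exact_mod_cast hn
  have hm0 : (0 : ℝ) < m := by exact_mod_cast hm
  have hna := mul_pos hn0 ha
  have hma := mul_pos hm0 ha
  have haK' : ∀ k : ℕ, 1 ≤ k → ¬ Appr q ((k * a : ℝ) : ℂ) := by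
    intro k hk h
    apply haK
    have hk0 : (k : ℂ) ≠ 0 := by exact_mod_cast (by omega : k ≠ 0)
    have h1 := Appr.mul hq (Appr.inv hq (nat_appr hq k)) h
    have e1 : (k : ℂ)⁻¹ * ((k * a : ℝ) : ℂ) = (a : ℂ) := by
      push_cast
      field_simp
    rwa [e1] at h1
  have hlog : Real.log (n * a) ≠ 0 := by
    intro h0
    rcases Real.log_eq_zero.1 h0 with h | h | h
    · exact hna.ne' h
    · apply haK' n hn
      rw [h]
      simpa using Appr.one hq
    · linarith
  have hratio : ¬ ∃ x : ℝ, RAppr q x ∧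
      ((Real.log (m * a) : ℝ) : ℂ) / ((Real.log (n * a) : ℝ) : ℂ) = x := by
    rintro ⟨x, hx, hxe⟩
    have h1 : Real.log (m * a) = x * Real.log (n * a) := by
      have h2 : ((Real.log (m * a) : ℝ) : ℂ) = (x : ℂ) * ((Real.log (n * a) : ℝ) : ℂ) := by
        rw [← hxe]
        have : ((Real.log (n * a) : ℝ) : ℂ) ≠ 0 := by exact_mod_cast hlog
        rw [div_mul_cancel₀ _ this]
      exact_mod_cast h2
    rw [Real.log_mul hm0.ne' ha.ne', Real.log_mul hn0.ne' ha.ne'] at h1
    by_cases hx1 : x = 1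
    · rw [hx1] at h1
      have h2 : Real.log m = Real.log n := by linarith
      have h3 := Real.log_injOn_pos (Set.mem_Ioi.2 hm0) (Set.mem_Ioi.2 hn0) h2
      exact hnm (by exact_mod_cast h3.symm)
    · have h2 : Appr q (Complex.exp (((x * Real.log n - Real.log m : ℝ) : ℝ) : ℂ)) := by
        have a1 : Appr q (Complex.exp ((x : ℂ) * ((Real.log n : ℝ) : ℂ))) := by
          refine Appr.rpow hq ?_ hx
          rw [← Complex.ofReal_exp, Real.exp_log hn0]
          exact_mod_cast nat_appr hq n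
        have a2 : Appr q (Complex.exp ((Real.log m : ℝ) : ℂ)) := by
          rw [← Complex.ofReal_exp, Real.exp_log hm0]
          exact_mod_cast nat_appr hq m
        have e1 : Complex.exp (((x * Real.log n - Real.log m : ℝ) : ℝ) : ℂ) =
            Complex.exp ((x : ℂ) * ((Real.log n : ℝ) : ℂ)) *
              (Complex.exp ((Real.log m : ℝ) : ℂ))⁻¹ := by
          rw [← Complex.exp_neg, ← Complex.exp_add]
          congr 1
          push_cast
          ring
        rw [e1]
        exact Appr.mul hq a1 (Appr.inv hq a2)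
      have hx1' : (1 - x) ≠ 0 := sub_ne_zero.2 (Ne.symm hx1)
      have hy : RAppr q ((1 - x)⁻¹) :=
        (UR hq).inv_mem ((UR hq).sub_mem (UR hq).one_mem hx)
      have h3 := Appr.rpow hq h2 hy
      have e2 : (((1 - x)⁻¹ : ℝ) : ℂ) * (((x * Real.log n - Real.log m : ℝ) : ℝ) : ℂ) =
          ((Real.log a : ℝ) : ℂ) := by
        have h4 : x * Real.log n - Real.log m = (1 - x) * Real.log a := by linarith
        rw [h4, ← Complex.ofReal_mul, inv_mul_cancel_left₀ hx1']
      rw [e2, ← Complex.ofReal_exp, Real.exp_log ha] at h3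
      exact haK h3
  have ht' := (far_iff t).1 ht
  have hrk := rank_WE hq t ((Real.log (n * a) : ℝ) : ℂ) ((Real.log (m * a) : ℝ) : ℂ)
    ht' (by exact_mod_cast hlog) hratio
  set E := WE hq t ((Real.log (n * a) : ℝ) : ℂ) ((Real.log (m * a) : ℝ) : ℂ) with hE
  have hmem : ∀ u : ℂ, u ∈ E ↔ u ∈ W (UR hq) t ∧ ((n * a : ℝ) : ℂ) ^ u ∈ UK hq ∧
      ((m * a : ℝ) : ℂ) ^ u ∈ UK hq := by
    intro u
    rw [ofReal_cpow' hna, ofReal_cpow' hma, mul_comm u ((Real.log (n * a) : ℝ) : ℂ),
      mul_comm u ((Real.log (m * a) : ℝ) : ℂ)]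
    rfl
  have hES : (E : Set ℂ) = exponents (UK hq) (UR hq) a t n m := by
    ext u
    exact hmem u
  refine ⟨⟨E, hES, hrk⟩, fun h1 => ?_, ?_⟩
  · have h2 := h1.2.1
    rw [Complex.cpow_one] at h2
    exact haK' n hn h2
  · rw [← hES]
    exact encard_le_of_indep _ (pow_indep hq ht') E hrk

end

/-- **Main result.** -/
theorem result :
    (∀ q : ℕ → ℕ, (∀ k, 2 ≤ q k) →
      ∃ (K : IntermediateField ℚ ℂ) (R : IntermediateField ℚ ℝ), Fields q K R ∧
        ((Real.pi : ℝ) : ℂ) ∉ K ∧
        ∀ a : ℝ, 0 < a → (a : ℂ) ∉ K →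
          (∀ s : ℂ, (∀ x ∈ R, s ≠ ((x : ℝ) : ℂ)) → Few K a s ∧ Coset K R a s ∧ Powers K R a s) ∧
          (∀ t : ℂ, Far t → ∀ n m : ℕ, 1 ≤ n → 1 ≤ m → n ≠ m → Small R t (exponents K R a t n m))) ∧
    Far ((Real.pi : ℝ) : ℂ) ∧ Explicit := by
  refine ⟨fun q hq => ⟨Pool.Agent.R347.LW.UK hq, Pool.Agent.R347.LW.UR hq, fields hq,
    Pool.Agent.R347.LW.pi_notMem hq, fun a ha haK => ⟨fun s hs => good hq ha s ?_,
    fun t ht n m hn hm hnm => goodExponents hq ha haK ht hn hm hnm⟩⟩, far_pi, explicit⟩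
  rintro ⟨x, hx, hsx⟩
  exact hs x hx hsx

end Pool.Agent.Results.MP_4c2ad3_nt.LargeField
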