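import Pool.Agent.T6.H79.SX.Conv

/-!
# Numbers `ξ n ^ s` extremely close to algebraic numbers: a sharp criterion for the exponent

The number `π ^ π` is the member `n = 1` of the family `(n π) ^ π = π ^ π n ^ π`. At every scale `N`, `Q`,
`d` at most `(log₂ N + 1) ^ 2` of the integers `n ≤ N` have a number `(n π) ^ π` within
`exp (-(d ^ d log (N Q)) ^ κ)` of an algebraic number of degree at most `d` and height at most `Q`; `κ` is
a constant. The same holds for the numbers `ξ n ^ s`, uniformly in the factor `ξ`, if and only if the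
exponent `s` is not extremely close to rational numbers: `|s - u / w| ≥ exp (-w ^ A)`.

The proof of the count: a quantitative six exponentials theorem with polynomial dependence on all
parameters (`Pool.Agent.T6.H79.SX.six_quant`, obtained from the starting file
`Pool.Agent.R347.SX.Final` by a change of the parameters), applied to the logarithms of three quotients
`n_i / n_0` and to `1, s`; linear forms in the logarithms with small integer coefficients and small
rational approximations to `s` are excluded by Liouville's inequality and by the assumption on `s`. The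
converse: if `s` is within `exp (-w ^ A)` of `u / w` then the `w`-th powers of the integers up to
`2 ^ (w A)` have `s`-th powers extremely close to the integers `m ^ u`.
-/

set_option autoImplicit false

namespace Pool.Agent.Results.MP_4c2ad3_nt.NearAlgebraicCriterion

open Finset

/-- `s` is not extremely close to rational numbers: `|s - u / w| ≥ exp (-w ^ A)` for some `A` and all
integers `w ≥ 2` and `u`. -/
def NotExtreme (s : ℝ) : Prop :=
  ∃ A : ℕ, ∀ w : ℕ, 2 ≤ w → ∀ u : ℤ, Real.exp (-(w : ℝ) ^ A) ≤ |s - u / w|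

/-- `x` is within `δ` of a nonzero (complex) algebraic number which is a root of a nonzero integer
polynomial of degree at most `d` with coefficients of absolute value at most `Q`. -/
def Near (d Q : ℕ) (δ x : ℝ) : Prop :=
  ∃ α : ℂ, α ≠ 0 ∧ (∃ P : Polynomial ℤ, P ≠ 0 ∧ P.natDegree ≤ d ∧ (∀ i, |P.coeff i| ≤ Q) ∧
    Polynomial.aeval α P = 0) ∧ ‖(x : ℂ) - α‖ ≤ δ

/-- The precision `exp (-(d ^ d log (N Q)) ^ κ)` at the scale `N`, `Q`, `d`. -/
noncomputable def precision (κ N Q d : ℕ) : ℝ :=
  Real.exp (-((d : ℝ) ^ d * Real.log (N * Q)) ^ κ)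

open Classical in
/-- The integers `1 ≤ n ≤ N` for which `ξ n ^ s` is, at the precision of the scale `N`, `Q`, `d`, a
nonzero algebraic number of degree at most `d` and height at most `Q`. -/
noncomputable def nearAlgebraic (s ξ : ℝ) (κ N Q d : ℕ) : Finset ℕ :=
  (Icc 1 N).filter fun n : ℕ => Near d Q (precision κ N Q d) (ξ * (n : ℝ) ^ s)

open Classical in
/-- The integers `1 ≤ n ≤ N` for which `n ^ s` is within `exp (-(log N) ^ κ)` of an integer. -/
noncomputable def nearInteger (s : ℝ) (κ N : ℕ) : Finset ℕ :=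
  (Icc 1 N).filter fun n : ℕ => ∃ m : ℤ, |(n : ℝ) ^ s - m| ≤ Real.exp (-(Real.log N) ^ κ)

open Classical in
/-- **The criterion.**
(1) For every real `s > 0` the following are equivalent: (a) `s` is not extremely close to rational
numbers; (b) for some `κ`, at most `(log₂ N + 1) ^ 2` of the integers `n ≤ N` have `ξ n ^ s` within
`exp (-(d ^ d log (N Q)) ^ κ)` of a nonzero algebraic number of degree at most `d` and height at most
`Q`, for all `N, Q ≥ 2`, `d ≥ 1` with `d ^ d log (N Q)` large and ALL `ξ > 0`; (c) for some `κ`, at most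
`(log₂ N + 1) ^ 2` of the integers `n ≤ N` have `n ^ s` within `exp (-(log N) ^ κ)` of an integer, for
all large `N`; (d) the same as (c) with `(log N) ^ B` for some `B`.
(2) `π` and `e` are not extremely close to rational numbers.
(3) In particular at most `(log₂ N + 1) ^ 2` of the integers `n ≤ N` have `(n π) ^ π` within
`exp (-(d ^ d log (N Q)) ^ κ)` of a nonzero algebraic number of degree at most `d` and height at most
`Q`, for all `N, Q ≥ 2`, `d ≥ 1` with `d ^ d log (N Q)` large. -/
theorem result :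
    (∀ s : ℝ, 0 < s → List.TFAE [
      NotExtreme s,
      ∃ (κ : ℕ) (X₀ : ℝ), ∀ (N Q d : ℕ) (ξ : ℝ), 2 ≤ N → 2 ≤ Q → 1 ≤ d →
        X₀ ≤ (d : ℝ) ^ d * Real.log (N * Q) → 0 < ξ →
        (nearAlgebraic s ξ κ N Q d).card ≤ (Nat.log 2 N + 1) ^ 2,
      ∃ κ N₀ : ℕ, ∀ N : ℕ, N₀ ≤ N → (nearInteger s κ N).card ≤ (Nat.log 2 N + 1) ^ 2,
      ∃ κ B N₀ : ℕ, ∀ N : ℕ, N₀ ≤ N → ((nearInteger s κ N).card : ℝ) ≤ (Real.log N) ^ B]) ∧
    (NotExtreme Real.pi ∧ NotExtreme (Real.exp 1)) ∧
    ∃ (κ : ℕ) (X₀ : ℝ), ∀ N Q d : ℕ, 2 ≤ N → 2 ≤ Q → 1 ≤ d →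
      X₀ ≤ (d : ℝ) ^ d * Real.log (N * Q) →
      ((Icc 1 N).filter fun n : ℕ =>
        Near d Q (precision κ N Q d) (((n : ℝ) * Real.pi) ^ Real.pi)).card ≤
        (Nat.log 2 N + 1) ^ 2 := by
  refine ⟨fun s hs => ?_, ⟨Pool.Agent.T6.H79.SX.dio_pi, Pool.Agent.T6.H79.SX.dio_e⟩, ?_⟩
  · tfae_have 1 → 2 := fun h => Pool.Agent.T6.H79.SX.count_of_dio h
    tfae_have 1 → 3 := fun h => Pool.Agent.T6.H79.SX.nearInt_le hs h
    tfae_have 2 → 3 := Pool.Agent.T6.H79.SX.nearInt_of_count hs
    tfae_have 3 → 4 := Pool.Agent.T6.H79.SX.log_bound_of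
    tfae_have 4 → 1 := fun ⟨κ, B, N₀, h⟩ => Pool.Agent.T6.H79.SX.dio_of_count hs h
    tfae_finish
  · obtain ⟨κ, X₀, h⟩ := Pool.Agent.T6.H79.SX.count_of_dio Pool.Agent.T6.H79.SX.dio_pi
    refine ⟨κ, X₀, fun N Q d hN hQ hd hX => ?_⟩
    refine le_trans (le_of_eq ?_)
      (h N Q d (Real.pi ^ Real.pi) hN hQ hd hX (Real.rpow_pos_of_pos Real.pi_pos _))
    congr 1
    refine Finset.filter_congr fun n _ => ?_
    have e : ((n : ℝ) * Real.pi) ^ Real.pi = Real.pi ^ Real.pi * (n : ℝ) ^ Real.pi := by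
      rw [Real.mul_rpow (Nat.cast_nonneg n) Real.pi_pos.le, mul_comm]
    rw [e]
    rfl

end Pool.Agent.Results.MP_4c2ad3_nt.NearAlgebraicCriterion
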