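import Pool.Agent.T6.H79.SX.Exps

/-!
# The numbers `n ^ x π ^ y` with exponents `x`, `y` in `ℚ(π)` extremely close to algebraic numbers

The number `π ^ π` is the member `n = 1`, `x = y = π` of the family `n ^ x π ^ y`, `x, y ∈ ℚ(π)`. For all
exponents `x = P(π) / R(π)` and `y = S(π) / T(π)` of degree at most `D` and height at most `H` at once, `x`
irrational, at every scale `N`, `Q`, `d`: all but `(2 H + 1) ^ (4 (D + 1)) (log₂ N + 1) ^ 2` of the integers
`n ≤ N` have none of the numbers `n ^ x π ^ y` within `exp (-(H d ^ d log (N Q)) ^ κ)` of an algebraic number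
of degree at most `d` and height at most `Q`. Here `κ` depends on `D` only. For `H ≤ (log N) ^ C` these
are polylogarithmically few exceptions `n`. The same holds for the numbers `ξ n ^ x` with `ξ` in any finite
set and exponents `x` in `ℚ(t)`, for all real numbers `t` with a transcendence measure of polynomial type
in every degree, for example `π`, `e` and the logarithms of rational numbers.

The proof: a quantitative six exponentials theorem with polynomial dependence on all parameters, uniform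
in the exponent (`Pool.Agent.T6.H79.SX.scale`), and the transcendence measure of `t` (starting files
`Pool.Agent.TH456.TM`), which bounds `|x - u / w|` below by `(H w) ^ (-A)` for all these exponents.
-/

set_option autoImplicit false

namespace Pool.Agent.Results.MP_4c2ad3_nt.NearAlgebraicExponents

open Finset Polynomial

/-- `t` has a transcendence measure of polynomial type in every degree. -/
def HasMeasure (t : ℝ) : Prop :=
  ∀ D : ℕ, ∃ κ c : ℝ, 0 ≤ κ ∧ 0 < c ∧ ∀ P : ℤ[X], P ≠ 0 → P.natDegree ≤ D →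
    ∀ H : ℝ, 1 ≤ H → (∀ j, |(P.coeff j : ℝ)| ≤ H) → c ≤ H ^ κ * |aeval t P|

/-- `x` is within `δ` of a nonzero (complex) algebraic number which is a root of a nonzero integer
polynomial of degree at most `d` with coefficients of absolute value at most `Q`. -/
def Near (d Q : ℕ) (δ x : ℝ) : Prop :=
  ∃ α : ℂ, α ≠ 0 ∧ (∃ P : ℤ[X], P ≠ 0 ∧ P.natDegree ≤ d ∧ (∀ i, |P.coeff i| ≤ Q) ∧
    aeval α P = 0) ∧ ‖(x : ℂ) - α‖ ≤ δ

/-- The precision `exp (-(H d ^ d log (N Q)) ^ κ)`. -/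
noncomputable def precision (κ H N Q d : ℕ) : ℝ :=
  Real.exp (-((H : ℝ) * (d : ℝ) ^ d * Real.log (N * Q)) ^ κ)

/-- The values `P(t) / R(t)` of the quotients of integer polynomials of degree at most `D` with
coefficients of absolute value at most `H`, `R(t) ≠ 0`. -/
def values (t : ℝ) (D H : ℕ) : Set ℝ :=
  {x | ∃ P R : ℤ[X], P.natDegree ≤ D ∧ R.natDegree ≤ D ∧ (∀ j, |P.coeff j| ≤ H) ∧
    (∀ j, |R.coeff j| ≤ H) ∧ aeval t R ≠ 0 ∧ x = aeval t P / aeval t R}

open Classical in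
/-- (1) For every real `t` with a transcendence measure and every `D` there is `κ` such that for all
`H, N, Q ≥ 2`, `d ≥ 1` with `H d ^ d log (N Q) ≥ 3200` and all finite sets `Ξ` of positive real numbers, at
most `(2 H + 1) ^ (2 (D + 1)) |Ξ| (log₂ N + 1) ^ 2` of the integers `n ≤ N` have, for SOME irrational
`x = P(t) / R(t)` of degree at most `D` and height at most `H` and some `ξ` in `Ξ`, a number `ξ n ^ x`
within `exp (-(H d ^ d log (N Q)) ^ κ)` of a nonzero algebraic number of degree at most `d` and height at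
most `Q`.
(2) For every `D` there is `κ` such that at most `(2 H + 1) ^ (4 (D + 1)) (log₂ N + 1) ^ 2` of the integers
`n ≤ N` have, for SOME irrational `x = P(π) / R(π)` and SOME `y = S(π) / T(π)` of degree at most `D` and
height at most `H`, a number `n ^ x π ^ y` within the same distance of such an algebraic number.
(3) The numbers `π`, `e`, and `log q`, `q ≠ 1` a positive rational number, have a transcendence
measure. -/
theorem result :
    (∀ t : ℝ, HasMeasure t → ∀ D : ℕ, ∃ κ : ℕ, ∀ (H N Q d : ℕ) (Ξ : Finset ℝ),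
      2 ≤ H → 2 ≤ N → 2 ≤ Q → 1 ≤ d → 3200 ≤ (H : ℝ) * (d : ℝ) ^ d * Real.log (N * Q) →
      (∀ ξ ∈ Ξ, 0 < ξ) →
      ((Icc 1 N).filter fun n : ℕ => ∃ x ∈ values t D H, Irrational x ∧ ∃ ξ ∈ Ξ,
        Near d Q (precision κ H N Q d) (ξ * (n : ℝ) ^ x)).card ≤
        (2 * H + 1) ^ (2 * (D + 1)) * Ξ.card * (Nat.log 2 N + 1) ^ 2) ∧
    (∀ D : ℕ, ∃ κ : ℕ, ∀ H N Q d : ℕ,
      2 ≤ H → 2 ≤ N → 2 ≤ Q → 1 ≤ d → 3200 ≤ (H : ℝ) * (d : ℝ) ^ d * Real.log (N * Q) →
      ((Icc 1 N).filter fun n : ℕ => ∃ x ∈ values Real.pi D H, Irrational x ∧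
        ∃ y ∈ values Real.pi D H,
        Near d Q (precision κ H N Q d) ((n : ℝ) ^ x * Real.pi ^ y)).card ≤
        (2 * H + 1) ^ (4 * (D + 1)) * (Nat.log 2 N + 1) ^ 2) ∧
    (HasMeasure Real.pi ∧ HasMeasure (Real.exp 1) ∧
      ∀ q : ℚ, 0 < q → q ≠ 1 → HasMeasure (Real.log q)) := by
  have hiff : ∀ t : ℝ, HasMeasure t ↔ Pool.Agent.TH456.TM.MeasT (t : ℂ) := by
    intro t
    unfold HasMeasure Pool.Agent.TH456.TM.MeasT
    simp only [Pool.Agent.TH456.TM.abs_aeval]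
  have main : ∀ t : ℝ, HasMeasure t → ∀ D : ℕ, ∃ κ : ℕ, ∀ (H N Q d : ℕ) (Ξ : Finset ℝ),
      2 ≤ H → 2 ≤ N → 2 ≤ Q → 1 ≤ d → 3200 ≤ (H : ℝ) * (d : ℝ) ^ d * Real.log (N * Q) →
      (∀ ξ ∈ Ξ, 0 < ξ) →
      ((Icc 1 N).filter fun n : ℕ => ∃ x ∈ values t D H, Irrational x ∧ ∃ ξ ∈ Ξ,
        Near d Q (precision κ H N Q d) (ξ * (n : ℝ) ^ x)).card ≤
        (2 * H + 1) ^ (2 * (D + 1)) * Ξ.card * (Nat.log 2 N + 1) ^ 2 := by
    intro t ht D
    obtain ⟨κ, hκ⟩ := Pool.Agent.T6.H79.SX.all_exps ((hiff t).1 ht) D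
    refine ⟨κ, fun H N Q d Ξ hH hN hQ hd hX hΞ => ?_⟩
    refine le_trans (card_le_card ?_) (hκ H N Q d Ξ hH hN hQ hd hX hΞ)
    intro n hn
    rw [mem_filter] at hn ⊢
    obtain ⟨hn1, x, ⟨P, R, hP, hR, hPH, hRH, hR0, hx⟩, hirr, ξ, hξ, hnear⟩ := hn
    refine ⟨hn1, x, ⟨fun r h => hirr ⟨r, h.symm⟩, P, R, hP, hR, hPH, hRH, ?_, hx⟩, ξ, hξ, hnear⟩
    rintro rfl
    exact hR0 (map_zero _)
  refine ⟨main, fun D => ?_, (hiff _).2 Pool.Agent.TH456.TM.measT_pi,
    (hiff _).2 Pool.Agent.TH456.TM.measT_e, fun q hq hq1 => (hiff _).2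
      (Pool.Agent.TH456.TM.measT_real_log q hq hq1)⟩
  obtain ⟨κ, hκ⟩ := main Real.pi ((hiff _).2 Pool.Agent.TH456.TM.measT_pi) D
  refine ⟨κ, fun H N Q d hH hN hQ hd hX => ?_⟩
  set V := (Pool.Agent.T6.H79.SX.vecs D H ×ˢ Pool.Agent.T6.H79.SX.vecs D H).image
    (fun c => Real.pi ^ (aeval Real.pi (Pool.Agent.T6.H79.SX.pol c.1) /
      aeval Real.pi (Pool.Agent.T6.H79.SX.pol c.2))) with hV
  have hVc : V.card ≤ (2 * H + 1) ^ (2 * (D + 1)) := by
    refine card_image_le.trans (le_of_eq ?_)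
    rw [card_product, Pool.Agent.T6.H79.SX.card_vecs, ← pow_add]
    congr 1
    ring
  have hVpos : ∀ ξ ∈ V, 0 < ξ := by
    intro ξ hξ
    rw [hV, mem_image] at hξ
    obtain ⟨c, _, rfl⟩ := hξ
    exact Real.rpow_pos_of_pos Real.pi_pos _
  have h1 := hκ H N Q d V hH hN hQ hd hX hVpos
  refine le_trans (card_le_card ?_) (h1.trans ?_)
  · intro n hn
    rw [mem_filter] at hn ⊢
    obtain ⟨hn1, x, hx, hirr, y, ⟨P, R, hP, hR, hPH, hRH, hR0, hy⟩, hnear⟩ := hn
    refine ⟨hn1, x, hx, hirr, Real.pi ^ y, ?_, by rwa [mul_comm]⟩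
    rw [hV, mem_image]
    refine ⟨(fun i => P.coeff i, fun i => R.coeff i), ?_, ?_⟩
    · rw [mem_product]
      exact ⟨Pool.Agent.T6.H79.SX.coeffs_mem P hPH, Pool.Agent.T6.H79.SX.coeffs_mem R hRH⟩
    · simp only
      rw [Pool.Agent.T6.H79.SX.pol_coeffs P hP, Pool.Agent.T6.H79.SX.pol_coeffs R hR, hy]
  · calc (2 * H + 1) ^ (2 * (D + 1)) * V.card * (Nat.log 2 N + 1) ^ 2
        ≤ (2 * H + 1) ^ (2 * (D + 1)) * (2 * H + 1) ^ (2 * (D + 1)) * (Nat.log 2 N + 1) ^ 2 := by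
          gcongr
      _ = _ := by rw [← pow_add]; congr 2; ring

end Pool.Agent.Results.MP_4c2ad3_nt.NearAlgebraicExponents
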