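import Pool.Agent.T6.H39.TR.Tuples

/-!
# Products `π ^ y n_1 ^ x_1 ⋯ n_k ^ x_k` for tuples of integers and all exponents in a space

The numbers `π ^ π`, `(m π) ^ π (n π) ^ e`, ... are products `π ^ y n_1 ^ x_1 ⋯ n_k ^ x_k` with
exponents in a finite dimensional space `U` over the field of algebraic numbers. We show that for all but
`C N ^ (k - 1) (log N) ^ c` of the `N ^ k` tuples `(n_1, ..., n_k)` of integers between `1` and `N` ALL
these products (with `x_1, ..., x_k` not all algebraic) are transcendental. The power `N ^ (k - 1)` is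
the right one, because `n ^ x n ^ (-x) = 1`. The starting result
`MP_4c2ad3_nt.PowersTimesPowersOfPi` is about one integer (`k = 1`).

The proof. Let `R` be the space of the vectors `(A_1, ..., A_d)` of linear forms in logarithms with
`∑ b_j A_j ∈ W`, where `b_j` is a basis of `U` and `W` is the space of the allowed additional terms
(e.g. `W = U log π`). By the hyperplane case of the linear subgroup theorem (starting files) it has
dimension at most `d (d - 1) + dim W`. A relation `∑ x_i log n_i + w = λ` is a vector of `R`, and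
certain combinations of its coordinates are linear combinations of `log n_1, ..., log n_k` only. So
these logarithms are linearly dependent modulo one of `d - 1` spaces of dimension at most
`d (d - 1) + dim W`, which depend only on `U` and `W`. The tuples with this property are counted with
the help of Baker's theorem.
-/

set_option autoImplicit false

namespace Pool.Agent.Results.MP_4c2ad3_nt.TuplesAndPi

open Module Finset
open Pool.Agent.H301R2.SSE (QB mem_QB Lt Lt_mul Lt_alg Lt_log Lt_one)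
open Pool.Agent.T6.H39.TR

/-- The linear combinations, with algebraic coefficients, of `1` and of logarithms of algebraic
numbers. -/
noncomputable def LogForms : Submodule (algebraicClosure ℚ ℂ) ℂ :=
  Submodule.span (algebraicClosure ℚ ℂ) ({1} ∪ {z : ℂ | IsAlgebraic ℚ (Complex.exp z)})

/-- The numbers `e ^ z` with `z` in `LogForms`, i.e. the numbers `e ^ γ α_1 ^ β_1 ⋯ α_k ^ β_k` with
algebraic `γ`, `α_i ≠ 0`, `β_i`. -/
def Prods : Set ℂ := {x | ∃ z ∈ LogForms, Complex.exp z = x}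

open Classical in
/-- The tuples `(n_1, ..., n_k)` of integers between `1` and `N` such that
`e ^ w n_1 ^ x_1 ⋯ n_k ^ x_k` is in `Prods` for SOME `x_1, ..., x_k` in `U`, not all algebraic, and
SOME `w` in `W`. -/
noncomputable def bad (k : ℕ) (U W : Submodule (algebraicClosure ℚ ℂ) ℂ) (N : ℕ) :
    Finset (Fin k → ℕ) :=
  (Fintype.piFinset fun _ => Finset.Icc 1 N).filter fun n => ∃ x : Fin k → ℂ, (∀ i, x i ∈ U) ∧
    (∃ i, Transcendental ℚ (x i)) ∧ ∃ w ∈ W, Complex.exp w * ∏ i, (n i : ℂ) ^ x i ∈ Prods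

open Classical in
/-- The tuples `(n_1, ..., n_k)` of integers between `1` and `N` such that
`e ^ (w / Q) n_1 ^ (P_1 / Q) ⋯ n_k ^ (P_k / Q)` is in `Prods` for SOME `P_1, ..., P_k, Q ≠ 0` in
`U`, `P_1 / Q, ..., P_k / Q` not all algebraic, and SOME `w` in `W`. -/
noncomputable def badQuot (k : ℕ) (U W : Submodule (algebraicClosure ℚ ℂ) ℂ) (N : ℕ) :
    Finset (Fin k → ℕ) :=
  (Fintype.piFinset fun _ => Finset.Icc 1 N).filter fun n => ∃ (P : Fin k → ℂ) (Q : ℂ),
    (∀ i, P i ∈ U) ∧ Q ∈ U ∧ Q ≠ 0 ∧ (∃ i, Transcendental ℚ (P i / Q)) ∧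
    ∃ w ∈ W, Complex.exp (w / Q) * ∏ i, (n i : ℂ) ^ (P i / Q) ∈ Prods

open Classical in
/-- The tuples `(n_1, ..., n_k)` of integers between `1` and `N` such that
`π ^ y n_1 ^ x_1 ⋯ n_k ^ x_k` is in `Prods` for SOME `y, x_1, ..., x_k` in `U`, `x_1, ..., x_k` not
all algebraic. -/
noncomputable def badPi (k : ℕ) (U : Submodule (algebraicClosure ℚ ℂ) ℂ) (N : ℕ) :
    Finset (Fin k → ℕ) :=
  (Fintype.piFinset fun _ => Finset.Icc 1 N).filter fun n => ∃ (y : ℂ) (x : Fin k → ℂ), y ∈ U ∧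
    (∀ i, x i ∈ U) ∧ (∃ i, Transcendental ℚ (x i)) ∧
    ((Real.pi : ℝ) : ℂ) ^ y * ∏ i, (n i : ℂ) ^ x i ∈ Prods

theorem prod_cpow {k : ℕ} (n : Fin k → ℕ) (hn : ∀ i, 1 ≤ n i) (x : Fin k → ℂ) :
    ∏ i, (n i : ℂ) ^ x i = Complex.exp (∑ i, x i * lg n i) := by
  rw [Complex.exp_sum]
  exact Finset.prod_congr rfl fun i _ => HP778.natCast_cpow (hn i) _

theorem tr_ne {x : ℂ} (h : Transcendental ℚ x) (a : QB) : algebraMap QB ℂ a ≠ x := by
  intro h'
  apply h
  rw [← h']
  exact mem_QB.mp a.2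

theorem lg_mem {k : ℕ} {n : Fin k → ℕ} (hn : ∀ i, 1 ≤ n i) (i : Fin k) : lg n i ∈ Lt :=
  Lt_log (HP778.exp_log_alg (hn i))

theorem sup_one_le (R : Submodule QB ℂ) [FiniteDimensional QB R] :
    finrank QB ((R ⊔ Submodule.span QB {(1 : ℂ)} : Submodule QB ℂ)) ≤ finrank QB R + 1 := by
  have := finrank_sup_le R (Submodule.span QB {(1 : ℂ)})
  rwa [finrank_span_singleton one_ne_zero] at this

/-- the image of `R` and `1` span a space which is not larger than `R` if an element of `R` is mapped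
to a constant -/
theorem map_sup_one_le {d : ℕ} (R : Submodule QB (Fin d → ℂ)) [FiniteDimensional QB R]
    (φ : (Fin d → ℂ) →ₗ[QB] ℂ) {A : Fin d → ℂ} (hA : A ∈ R) (hA0 : A ≠ 0) {a : QB}
    (ha : φ A = a • (1 : ℂ)) :
    finrank QB ((R.map φ ⊔ Submodule.span QB {(1 : ℂ)} : Submodule QB ℂ)) ≤ finrank QB R := by
  by_cases h0 : a = 0
  · have h1 := sup_one_le (R.map φ)
    have h2 := LinearMap.finrank_range_add_finrank_ker (φ.domRestrict R)
    have h3 : LinearMap.range (φ.domRestrict R) = R.map φ := by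
      rw [LinearMap.domRestrict, LinearMap.range_comp, Submodule.range_subtype]
    have h4 : 0 < finrank QB (LinearMap.ker (φ.domRestrict R)) := by
      rw [Nat.pos_iff_ne_zero]
      intro h5
      have h6 : LinearMap.ker (φ.domRestrict R) = ⊥ := Submodule.finrank_eq_zero.mp h5
      have h7 : (⟨A, hA⟩ : R) ∈ LinearMap.ker (φ.domRestrict R) := by
        rw [LinearMap.mem_ker, LinearMap.domRestrict_apply, ha, h0, zero_smul]
      rw [h6, Submodule.mem_bot] at h7
      exact hA0 (congrArg (fun z : R => (z : Fin d → ℂ)) h7)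
    rw [h3] at h2
    omega
  · have h1 : Submodule.span QB {(1 : ℂ)} ≤ R.map φ := by
      rw [Submodule.span_singleton_le_iff_mem]
      have h2 : (1 : ℂ) = a⁻¹ • φ A := by
        rw [ha, smul_smul, inv_mul_cancel₀ h0, one_smul]
      rw [h2]
      exact Submodule.smul_mem _ _ ⟨A, hA, rfl⟩
    rw [sup_eq_left.mpr h1]
    exact Submodule.finrank_map_le _ _

theorem basis_data (U : Submodule QB ℂ) [FiniteDimensional QB U] :
    ∃ d, finrank QB U = d ∧ ∃ b : Fin d → ℂ, LinearIndependent QB b ∧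
      Submodule.span QB (Set.range b) = U := by
  let b := Module.finBasis QB U
  refine ⟨_, rfl, fun i => (b i : ℂ), b.linearIndependent.map' U.subtype U.ker_subtype, ?_⟩
  have h1 : Set.range (fun i => (b i : ℂ)) = U.subtype '' Set.range b := by
    rw [← Set.range_comp]
    rfl
  rw [h1, ← Submodule.map_span, b.span_eq, Submodule.map_top, Submodule.range_subtype]

theorem bad_le (k : ℕ) (U W : Submodule QB ℂ) [FiniteDimensional QB U] [FiniteDimensional QB W]
    (h1 : (1 : ℂ) ∈ U) (N : ℕ) :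
    (bad k U W N).card ≤ (finrank QB U - 1) * (k * (N ^ (k - 1) * (Nat.log 2 N + 1) ^
      (finrank QB U * (finrank QB U - 1) + finrank QB W + (k - 1)))) ∧
    ((∃ t ∈ U, Transcendental ℚ t ∧ t ∈ Lt) →
      (bad k U W N).card ≤ (finrank QB U - 1) * (k * (N ^ (k - 1) * (Nat.log 2 N + 1) ^
        (finrank QB U * (finrank QB U - 1) + finrank QB W - 1 + (k - 1))))) := by
  classical
  obtain ⟨d, hd, b, hb, hbU⟩ := basis_data U
  rw [hd]
  obtain ⟨q, hq⟩ := (Submodule.mem_span_range_iff_exists_fun QB).mp (hbU.symm ▸ h1)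
  obtain ⟨l₀, hl₀⟩ : ∃ l₀, q l₀ ≠ 0 := by
    by_contra hcon
    push Not at hcon
    apply one_ne_zero (α := ℂ)
    rw [← hq]
    exact Finset.sum_eq_zero fun j _ => by rw [hcon j, zero_smul]
  obtain ⟨hfd, hfr⟩ := RW_fd HP778.hyper_Lt hb W
  have hbad : bad k U W N = tup (Fin k) N (fun n => ∃ x : Fin k → ℂ, (∀ i, x i ∈ U) ∧
      (∃ i, Transcendental ℚ (x i)) ∧ ∃ w ∈ W,
        Complex.exp w * ∏ i, (n i : ℂ) ^ x i ∈ Prods) := by
    ext n
    rw [mem_tup]
    unfold bad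
    rw [Finset.mem_filter, Fintype.mem_piFinset]
    simp only [Finset.mem_Icc]
  have hQ : ∀ n : Fin k → ℕ, (∀ i, 1 ≤ n i) → (∃ x : Fin k → ℂ, (∀ i, x i ∈ U) ∧
      (∃ i, Transcendental ℚ (x i)) ∧ ∃ w ∈ W,
        Complex.exp w * ∏ i, (n i : ℂ) ^ x i ∈ Prods) →
      ∃ j ∈ Finset.univ.erase l₀, Dep ((RW Lt b W).map (fun1 q l₀ j)) (lg n) := by
    rintro n hn ⟨x, hx, ⟨i₀, hi₀⟩, w, hw, z, hz, hze⟩
    rw [prod_cpow n hn, ← Complex.exp_add] at hze
    have h2 : w + ∑ i, x i * lg n i ∈ Lt := HP778.mem_of_exp hz hze.symm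
    rw [add_comm] at h2
    obtain ⟨j, hj, hdep⟩ := dep_one (b := b) (W := W) hq hl₀ (fun i => lg_mem hn i) hw
      (fun i => hbU.symm ▸ hx i) ⟨i₀, fun a => tr_ne hi₀ a⟩ h2
    exact ⟨j, Finset.mem_erase.mpr ⟨hj, Finset.mem_univ _⟩, hdep⟩
  have hS : (Finset.univ.erase l₀).card = d - 1 := by
    rw [Finset.card_erase_of_mem (Finset.mem_univ _), Finset.card_univ, Fintype.card_fin]
  constructor
  · have h3 := card_deps (κ := Fin k) (Finset.univ.erase l₀)
      (fun j => (RW Lt b W).map (fun1 q l₀ j)) (fun j _ => inferInstance)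
      (r := d * (d - 1) + finrank QB W) (fun j _ => by
        have h4 := sup_one_le ((RW Lt b W).map (fun1 q l₀ j))
        have h5 : finrank QB ((RW Lt b W).map (fun1 q l₀ j)) ≤ finrank QB (RW Lt b W) :=
          Submodule.finrank_map_le _ _
        omega) N _ hQ
    rw [hS, Fintype.card_fin] at h3
    rw [hbad]
    exact h3
  · rintro ⟨t, htU, ht, htL⟩
    obtain ⟨p, hp⟩ := (Submodule.mem_span_range_iff_exists_fun QB).mp (hbU.symm ▸ htU)
    set A : Fin d → ℂ := fun j => p j • (1 : ℂ) - q j • t with hA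
    have hAmem : A ∈ RW Lt b W := by
      refine ⟨fun j => Lt.sub_mem (Lt.smul_mem _ Lt_one) (Lt.smul_mem _ htL), ?_⟩
      have h5 : ∑ j, b j * A j = 0 := by
        simp only [hA, mul_sub, Finset.sum_sub_distrib]
        rw [← expand p t 1 hp.symm, ← expand q 1 t hq.symm]
        ring
      rw [h5]
      exact W.zero_mem
    have hA0 : A ≠ 0 := by
      intro h0
      have h5 := congrFun h0 l₀
      simp only [hA, Pi.zero_apply, sub_eq_zero] at h5
      apply tr_ne ht ((q l₀)⁻¹ * p l₀)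
      have h6 : t = (q l₀)⁻¹ • (p l₀ • (1 : ℂ)) := by
        rw [h5, smul_smul, inv_mul_cancel₀ hl₀, one_smul]
      rw [h6, smul_smul, Algebra.smul_def, mul_one]
    have hφ : ∀ j, fun1 q l₀ j A = (p j - q j / q l₀ * p l₀) • (1 : ℂ) := by
      intro j
      rw [fun1_apply]
      simp only [hA]
      rw [smul_sub, smul_smul, smul_smul, div_mul_cancel₀ _ hl₀, sub_smul]
      ring
    have h6 : 0 < finrank QB (RW Lt b W) := by
      rw [Module.finrank_pos_iff_exists_ne_zero]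
      refine ⟨⟨A, hAmem⟩, fun h => hA0 ?_⟩
      exact congrArg (fun z : RW Lt b W => (z : Fin d → ℂ)) h
    have h3 := card_deps (κ := Fin k) (Finset.univ.erase l₀)
      (fun j => (RW Lt b W).map (fun1 q l₀ j)) (fun j _ => inferInstance)
      (r := d * (d - 1) + finrank QB W - 1) (fun j _ => by
        have h4 := map_sup_one_le (RW Lt b W) (fun1 q l₀ j) hAmem hA0 (hφ j)
        omega) N _ hQ
    rw [hS, Fintype.card_fin] at h3
    rw [hbad]
    exact h3

theorem badQuot_le (k : ℕ) (U W : Submodule QB ℂ) [FiniteDimensional QB U]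
    [FiniteDimensional QB W] (N : ℕ) :
    (badQuot k U W N).card ≤ (finrank QB U).choose 2 * (k * (N ^ (k - 1) * (Nat.log 2 N + 1) ^
      (2 * (finrank QB U * (finrank QB U - 1) + finrank QB W) + (k - 1)))) := by
  classical
  obtain ⟨d, hd, b, hb, hbU⟩ := basis_data U
  rw [hd]
  obtain ⟨hfd, hfr⟩ := RW_fd HP778.hyper_Lt hb W
  have hbad : badQuot k U W N = tup (Fin k) N (fun n => ∃ (P : Fin k → ℂ) (Q : ℂ),
    (∀ i, P i ∈ U) ∧ Q ∈ U ∧ Q ≠ 0 ∧ (∃ i, Transcendental ℚ (P i / Q)) ∧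
    ∃ w ∈ W, Complex.exp (w / Q) * ∏ i, (n i : ℂ) ^ (P i / Q) ∈ Prods) := by
    ext n
    rw [mem_tup]
    unfold badQuot
    rw [Finset.mem_filter, Fintype.mem_piFinset]
    simp only [Finset.mem_Icc]
  have hE : ∀ s ∈ Finset.powersetCard 2 (Finset.univ : Finset (Fin d)), ∃ j j' : Fin d, j ≠ j' ∧
      s = {j, j'} := fun s hs => Finset.card_eq_two.mp (Finset.mem_powersetCard.mp hs).2
  have hsup : ∀ j j' : Fin d, j ≠ j' → ({j, j'} : Finset (Fin d)).sup
      (fun j => (RW Lt b W).map (LinearMap.proj j : (Fin d → ℂ) →ₗ[QB] ℂ)) =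
      (RW Lt b W).map (LinearMap.proj j) ⊔ (RW Lt b W).map (LinearMap.proj j') := by
    intro j j' _
    rw [Finset.sup_insert, Finset.sup_singleton]
  have hQ : ∀ n : Fin k → ℕ, (∀ i, 1 ≤ n i) → (∃ (P : Fin k → ℂ) (Q : ℂ),
    (∀ i, P i ∈ U) ∧ Q ∈ U ∧ Q ≠ 0 ∧ (∃ i, Transcendental ℚ (P i / Q)) ∧
    ∃ w ∈ W, Complex.exp (w / Q) * ∏ i, (n i : ℂ) ^ (P i / Q) ∈ Prods) →
      ∃ s ∈ Finset.powersetCard 2 (Finset.univ : Finset (Fin d)), Dep (s.sup
        (fun j => (RW Lt b W).map (LinearMap.proj j : (Fin d → ℂ) →ₗ[QB] ℂ))) (lg n) := by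
    rintro n hn ⟨P, Q, hP, hQU, hQ0, ⟨i₀, hi₀⟩, w, hw, z, hz, hze⟩
    rw [prod_cpow n hn, ← Complex.exp_add] at hze
    have h2 : w / Q + ∑ i, P i / Q * lg n i ∈ Lt := HP778.mem_of_exp hz hze.symm
    obtain ⟨j, j', hj, hdep⟩ := dep_gen (b := b) (W := W) (Q := Q) (x := P) (w := w)
      (lam := w / Q + ∑ i, P i / Q * lg n i)
      (hbU.symm ▸ hQU) hQ0 (fun i => lg_mem hn i) h2 hw (fun i => hbU.symm ▸ hP i)
      ⟨i₀, fun a h => tr_ne hi₀ a (by rw [← h, mul_div_cancel_right₀ _ hQ0])⟩ (by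
        rw [mul_add, mul_div_cancel₀ _ hQ0, Finset.mul_sum, add_comm]
        congr 1
        refine Finset.sum_congr rfl fun i _ => ?_
        field_simp)
    refine ⟨{j, j'}, ?_, ?_⟩
    · rw [Finset.mem_powersetCard]
      exact ⟨Finset.subset_univ _, Finset.card_pair hj.ne⟩
    · rw [hsup j j' hj.ne]
      exact hdep
  have h3 := card_deps (κ := Fin k) (Finset.powersetCard 2 (Finset.univ : Finset (Fin d)))
      (fun s => s.sup (fun j => (RW Lt b W).map (LinearMap.proj j : (Fin d → ℂ) →ₗ[QB] ℂ)))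
      (fun s hs => by
        obtain ⟨j, j', hj, rfl⟩ := hE s hs
        rw [hsup j j' hj]
        infer_instance)
      (r := 2 * (d * (d - 1) + finrank QB W)) (fun s hs => by
        obtain ⟨j, j', hj, rfl⟩ := hE s hs
        rw [hsup j j' hj]
        have h4 := sup_one_le ((RW Lt b W).map (LinearMap.proj j : (Fin d → ℂ) →ₗ[QB] ℂ) ⊔
          (RW Lt b W).map (LinearMap.proj j' : (Fin d → ℂ) →ₗ[QB] ℂ))
        have h5 := finrank_sup_le ((RW Lt b W).map (LinearMap.proj j : (Fin d → ℂ) →ₗ[QB] ℂ))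
          ((RW Lt b W).map (LinearMap.proj j' : (Fin d → ℂ) →ₗ[QB] ℂ))
        have h6 : finrank QB ((RW Lt b W).map (LinearMap.proj j : (Fin d → ℂ) →ₗ[QB] ℂ)) ≤
          finrank QB (RW Lt b W) := Submodule.finrank_map_le _ _
        have h7 : finrank QB ((RW Lt b W).map (LinearMap.proj j' : (Fin d → ℂ) →ₗ[QB] ℂ)) ≤
          finrank QB (RW Lt b W) := Submodule.finrank_map_le _ _
        omega) N _ hQ
  rw [Finset.card_powersetCard, Finset.card_univ, Fintype.card_fin, Fintype.card_fin] at h3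
  rw [hbad]
  exact h3

theorem pi_cpow (y : ℂ) : ((Real.pi : ℝ) : ℂ) ^ y =
    Complex.exp (y * ((Real.log Real.pi : ℝ) : ℂ)) := by
  rw [Complex.cpow_def_of_ne_zero (by exact_mod_cast Real.pi_pos.ne'),
    Complex.ofReal_log Real.pi_pos.le, mul_comm]

theorem badPi_sub (k : ℕ) (U : Submodule QB ℂ) (N : ℕ) :
    badPi k U N ⊆ bad k U (HP778.zV ((Real.log Real.pi : ℝ) : ℂ) U) N := by
  classical
  intro n hn
  unfold badPi at hn
  unfold bad
  rw [Finset.mem_filter] at hn ⊢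
  obtain ⟨hnN, y, x, hy, hx, hxt, hp⟩ := hn
  refine ⟨hnN, x, hx, hxt, y * ((Real.log Real.pi : ℝ) : ℂ), HP778.mem_zV hy, ?_⟩
  rwa [pi_cpow] at hp

theorem pi_tr : Transcendental ℚ ((Real.pi : ℝ) : ℂ) :=
  HP778.ofReal_transcendental Pool.Agent.H340R2.LW.transcendental_pi

/-- the space of the numbers `a + b π + c e` with algebraic `a`, `b`, `c` -/
noncomputable def U₃ : Submodule (algebraicClosure ℚ ℂ) ℂ :=
  Submodule.span (algebraicClosure ℚ ℂ) {(1 : ℂ), ((Real.pi : ℝ) : ℂ), ((Real.exp 1 : ℝ) : ℂ)}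

theorem alg_mem_prods (x : ℂ) (hx0 : x ≠ 0) (hx : IsAlgebraic ℚ x) : x ∈ Prods := by
  refine ⟨Complex.log x, Submodule.subset_span (Or.inr ?_), Complex.exp_log hx0⟩
  change IsAlgebraic ℚ (Complex.exp (Complex.log x))
  rwa [Complex.exp_log hx0]

theorem badPi_le (k : ℕ) (U : Submodule QB ℂ) [FiniteDimensional QB U] (h1 : (1 : ℂ) ∈ U)
    {d : ℕ} (hd : finrank QB U ≤ d) (N : ℕ) :
    (badPi k U N).card ≤ (d - 1) * (k * (N ^ (k - 1) * (Nat.log 2 N + 1) ^ (d ^ 2 + (k - 1)))) ∧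
    (((Real.pi : ℝ) : ℂ) ∈ U → (badPi k U N).card ≤
      (d - 1) * (k * (N ^ (k - 1) * (Nat.log 2 N + 1) ^ (d ^ 2 - 1 + (k - 1))))) := by
  have h0 := Finset.card_le_card (badPi_sub k U N)
  have h2 := bad_le k U (HP778.zV ((Real.log Real.pi : ℝ) : ℂ) U) h1 N
  have h3 := HP778.finrank_zV_le ((Real.log Real.pi : ℝ) : ℂ) U
  have hle : finrank QB U * (finrank QB U - 1) +
      finrank QB (HP778.zV ((Real.log Real.pi : ℝ) : ℂ) U) ≤ d ^ 2 := by
    have h4 : finrank QB U * (finrank QB U - 1) ≤ d * (d - 1) :=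
      Nat.mul_le_mul hd (by omega)
    have h5 : d * (d - 1) + d = d ^ 2 := by
      rcases Nat.eq_zero_or_pos d with rfl | hd0
      · rfl
      · obtain ⟨e, rfl⟩ : ∃ e, d = e + 1 := ⟨d - 1, by omega⟩
        rw [Nat.add_sub_cancel]; ring
    omega
  constructor
  · refine h0.trans (h2.1.trans ?_)
    refine Nat.mul_le_mul (by omega) (Nat.mul_le_mul_left _ (Nat.mul_le_mul_left _ ?_))
    exact Nat.pow_le_pow_right (by omega) (by omega)
  · intro hpi
    refine h0.trans ((h2.2 ⟨_, hpi, pi_tr, HP778.pi_mem_Lt⟩).trans ?_)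
    refine Nat.mul_le_mul (by omega) (Nat.mul_le_mul_left _ (Nat.mul_le_mul_left _ ?_))
    exact Nat.pow_le_pow_right (by omega) (by omega)

/-- **Main result.** Let `k ≥ 0`, `N ≥ 0`, and let `U`, `W` be finite dimensional subspaces of `ℂ` over
the field of algebraic numbers, `d = dim U`, `w = dim W`.

(1) If `1 ∈ U` there are at most `(d - 1) k N ^ (k - 1) (log₂ N + 1) ^ (d (d - 1) + w + k - 1)` tuples
`(n_1, ..., n_k)` of integers between `1` and `N` such that `e ^ y n_1 ^ x_1 ⋯ n_k ^ x_k` is in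
`Prods` for some `x_i ∈ U`, not all algebraic, and some `y ∈ W`. If `U` contains a transcendental linear
form in logarithms the exponent is at most `d (d - 1) + w - 1 + k - 1`.

(2) For arbitrary `U` there are at most
`(d choose 2) k N ^ (k - 1) (log₂ N + 1) ^ (2 (d (d - 1) + w) + k - 1)` tuples such that
`e ^ (y / Q) n_1 ^ (P_1 / Q) ⋯ n_k ^ (P_k / Q)` is in `Prods` for some `P_i, Q ∈ U`, `Q ≠ 0`, the
`P_i / Q` not all algebraic, and some `y ∈ W`.

(3) If `1 ∈ U` there are at most `(d - 1) k N ^ (k - 1) (log₂ N + 1) ^ (d ^ 2 + k - 1)` tuples such that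
`π ^ y n_1 ^ x_1 ⋯ n_k ^ x_k` is in `Prods` for some `y, x_1, ..., x_k ∈ U`, the `x_i` not all
algebraic; the exponent is at most `d ^ 2 - 1 + k - 1` if `π ∈ U`.

(4) In particular there is a set `B` of at most `4 N (log₂ N + 1) ^ 9` pairs such that for all pairs
`(m, n)` of integers between `1` and `N` outside `B` ALL numbers `π ^ x m ^ y n ^ z` with exponents
`x, y, z` in `U₃`, `y`, `z` not both algebraic, are transcendental (e.g. `π ^ π m ^ π n ^ e`).

(5) All nonzero algebraic numbers are in `Prods`. -/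
theorem result :
    (∀ (k N : ℕ) (U W : Submodule (algebraicClosure ℚ ℂ) ℂ),
      FiniteDimensional (algebraicClosure ℚ ℂ) U → FiniteDimensional (algebraicClosure ℚ ℂ) W →
      (1 : ℂ) ∈ U →
      (bad k U W N).card ≤ (finrank (algebraicClosure ℚ ℂ) U - 1) *
        (k * (N ^ (k - 1) * (Nat.log 2 N + 1) ^ (finrank (algebraicClosure ℚ ℂ) U *
          (finrank (algebraicClosure ℚ ℂ) U - 1) + finrank (algebraicClosure ℚ ℂ) W +
            (k - 1)))) ∧
      ((∃ t ∈ U, Transcendental ℚ t ∧ t ∈ LogForms) →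
        (bad k U W N).card ≤ (finrank (algebraicClosure ℚ ℂ) U - 1) *
          (k * (N ^ (k - 1) * (Nat.log 2 N + 1) ^ (finrank (algebraicClosure ℚ ℂ) U *
            (finrank (algebraicClosure ℚ ℂ) U - 1) + finrank (algebraicClosure ℚ ℂ) W - 1 +
              (k - 1)))))) ∧
    (∀ (k N : ℕ) (U W : Submodule (algebraicClosure ℚ ℂ) ℂ),
      FiniteDimensional (algebraicClosure ℚ ℂ) U → FiniteDimensional (algebraicClosure ℚ ℂ) W →
      (badQuot k U W N).card ≤ (finrank (algebraicClosure ℚ ℂ) U).choose 2 *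
        (k * (N ^ (k - 1) * (Nat.log 2 N + 1) ^ (2 * (finrank (algebraicClosure ℚ ℂ) U *
          (finrank (algebraicClosure ℚ ℂ) U - 1) + finrank (algebraicClosure ℚ ℂ) W) +
            (k - 1))))) ∧
    (∀ (k N : ℕ) (U : Submodule (algebraicClosure ℚ ℂ) ℂ),
      FiniteDimensional (algebraicClosure ℚ ℂ) U → (1 : ℂ) ∈ U →
      (badPi k U N).card ≤ (finrank (algebraicClosure ℚ ℂ) U - 1) *
        (k * (N ^ (k - 1) * (Nat.log 2 N + 1) ^
          (finrank (algebraicClosure ℚ ℂ) U ^ 2 + (k - 1)))) ∧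
      (((Real.pi : ℝ) : ℂ) ∈ U →
        (badPi k U N).card ≤ (finrank (algebraicClosure ℚ ℂ) U - 1) *
          (k * (N ^ (k - 1) * (Nat.log 2 N + 1) ^
            (finrank (algebraicClosure ℚ ℂ) U ^ 2 - 1 + (k - 1)))))) ∧
    (∀ N : ℕ, ∃ B : Finset (ℕ × ℕ), B.card ≤ 4 * (N * (Nat.log 2 N + 1) ^ 9) ∧
      ∀ m n : ℕ, 1 ≤ m → m ≤ N → 1 ≤ n → n ≤ N → (m, n) ∉ B →
        ∀ x ∈ U₃, ∀ y ∈ U₃, ∀ z ∈ U₃, (Transcendental ℚ y ∨ Transcendental ℚ z) →
          Transcendental ℚ (((Real.pi : ℝ) : ℂ) ^ x * (m : ℂ) ^ y * (n : ℂ) ^ z)) ∧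
    (∀ x : ℂ, x ≠ 0 → IsAlgebraic ℚ x → x ∈ Prods) := by
  classical
  refine ⟨fun k N U W hU hW h1 => ?_, fun k N U W hU hW => ?_, fun k N U hU h1 => ?_,
    fun N => ?_, alg_mem_prods⟩
  · exact bad_le k U W h1 N
  · exact badQuot_le k U W N
  · exact badPi_le k U h1 le_rfl N
  · have hset : ({(1 : ℂ), ((Real.pi : ℝ) : ℂ), ((Real.exp 1 : ℝ) : ℂ)} : Set ℂ) =
        Set.range ![(1 : ℂ), ((Real.pi : ℝ) : ℂ), ((Real.exp 1 : ℝ) : ℂ)] := by
      simp only [Matrix.range_cons, Matrix.range_empty, Set.union_empty]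
      rfl
    have hfd : FiniteDimensional QB U₃ := by
      unfold U₃
      rw [hset]
      exact fd_range _
    have hfr : finrank QB U₃ ≤ 3 := by
      unfold U₃
      rw [hset]
      refine (finrank_range_le_card _).trans ?_
      rw [Fintype.card_fin]
    have h1 : (1 : ℂ) ∈ U₃ := Submodule.subset_span (by simp)
    have hpi : ((Real.pi : ℝ) : ℂ) ∈ U₃ := Submodule.subset_span (by simp)
    have hB := (badPi_le 2 U₃ h1 hfr N).2 hpi
    refine ⟨(badPi 2 U₃ N).image fun n => (n 0, n 1), ?_, ?_⟩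
    · refine Finset.card_image_le.trans (hB.trans (le_of_eq ?_))
      norm_num
      ring
    · intro m n hm hmN hn hnN hmn x hx y hy z hz hyz halg
      apply hmn
      rw [Finset.mem_image]
      refine ⟨![m, n], ?_, rfl⟩
      unfold badPi
      rw [Finset.mem_filter, Fintype.mem_piFinset]
      refine ⟨fun i => ?_, x, ![y, z], hx, fun i => ?_, ?_, ?_⟩
      · rw [Finset.mem_Icc]
        fin_cases i
        · exact ⟨hm, hmN⟩
        · exact ⟨hn, hnN⟩
      · fin_cases i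
        · exact hy
        · exact hz
      · rcases hyz with h | h
        · exact ⟨0, h⟩
        · exact ⟨1, h⟩
      · rw [Fin.prod_univ_two]
        change ((Real.pi : ℝ) : ℂ) ^ x * ((m : ℂ) ^ y * (n : ℂ) ^ z) ∈ Prods
        rw [← mul_assoc]
        refine alg_mem_prods _ ?_ halg
        rw [pi_cpow, HP778.natCast_cpow hm, HP778.natCast_cpow hn, ← Complex.exp_add,
          ← Complex.exp_add]
        exact Complex.exp_ne_zero _

end Pool.Agent.Results.MP_4c2ad3_nt.TuplesAndPi
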